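import Mathlib
import Pool.Agent.H.MP_de06d2_co.B

set_option autoImplicit false

namespace Pool.Agent.H.MP_1b53c2_co

open Finset SimpleGraph

open Pool.Agent.H.MP_de06d2_co in
lemma rooted {V ι : Type} [Finite ι] (T : SimpleGraph ι)
    (hT : T.IsTree) (B : ι → Finset V)
    (h4 : ∀ v : V, (T.induce {i | v ∈ B i}).Connected) :
    ∃ (top : V → ι) (d : ι → ℕ) (par : ι → ι), (∀ v, v ∈ B (top v)) ∧
      (∀ v t, v ∈ B t → t ≠ top v → d (par t) < d t ∧ v ∈ B (par t)) ∧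
      ∀ u v, d (top u) ≤ d (top v) → ∀ j, u ∈ B j → v ∈ B j → u ∈ B (top v) := by
  classical
  obtain ⟨r⟩ := hT.connected.nonempty
  have : ∀ v, ∃ t, v ∈ B t ∧ ∀ i, v ∈ B i → T.dist r t ≤ T.dist r i := by
    intro v
    obtain ⟨⟨i, hi⟩⟩ := (h4 v).nonempty
    exact Set.exists_min_image {i | v ∈ B i} (T.dist r) (Set.toFinite _) ⟨i, hi⟩
  choose top t1 t2 using this
  have key : ∀ u v, T.dist r (top u) ≤ T.dist r (top v) → ∀ n j, T.dist r j = n → u ∈ B j →
      v ∈ B j → u ∈ B (top v) := by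
    intro u v huv n
    induction n using Nat.strong_induction_on with
    | _ n ih =>
    intro j hj hu hv
    by_cases e : j = top v
    · rwa [← e]
    obtain ⟨a, a1, a2, a3⟩ := up_mem hT r (h4 v) hv (t1 v) (t2 v j hv) e
    have := t2 v a a1
    obtain ⟨b, b1, b2, b3⟩ := up_mem hT r (h4 u) hu (t1 u) (t2 u j hu)
      (fun e => by rw [← e] at huv; omega)
    obtain rfl := up_unique hT r a2 b2 a3 b3
    exact ih _ (by omega) a rfl b1 a1
  have : ∀ t, ∃ p, ∀ a, T.Adj t a → T.dist r a + 1 = T.dist r t → a = p := by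
    intro t
    by_cases h : ∃ a, T.Adj t a ∧ T.dist r a + 1 = T.dist r t
    · obtain ⟨p, p1, p2⟩ := h
      exact ⟨p, fun a a1 a2 => up_unique hT r a1 p1 a2 p2⟩
    · exact ⟨t, fun a a1 a2 => absurd ⟨a, a1, a2⟩ h⟩
  choose par hp using this
  refine ⟨top, T.dist r, par, t1, fun v t hv e => ?_, fun u v h j => key u v h _ j rfl⟩
  obtain ⟨a, a1, a2, a3⟩ := up_mem hT r (h4 v) hv (t1 v) (t2 v t hv) e
  rw [← hp t a a2 a3]
  exact ⟨by omega, a1⟩

lemma greedy {V ι : Type} [DecidableEq V] (G : SimpleGraph V) (B : ι → Finset V) (top : V → ι)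
    (d : ι → ℕ) (t1 : ∀ v, v ∈ B (top v))
    (key : ∀ u v, d (top u) ≤ d (top v) → G.Adj u v → u ∈ B (top v)) (W : Finset V) :
    ∃ S ⊆ W, G.IsIndepSet (S : Set V) ∧ ∀ w ∈ W, ∃ s ∈ S, w ∈ B (top s) := by
  induction W using Finset.strongInduction with
  | H W ih =>
  rcases W.eq_empty_or_nonempty with rfl | hW
  · exact ⟨∅, by simp, by simp, by simp⟩
  obtain ⟨s, hs, hm⟩ := exists_max_image W (fun w => d (top w)) hW
  obtain ⟨S, a, b, c⟩ := ih (W \ B (top s))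
    ((ssubset_iff_of_subset sdiff_subset).2 ⟨s, hs, by simp [t1]⟩)
  refine ⟨insert s S, insert_subset hs (a.trans sdiff_subset), ?_, fun w hw => ?_⟩
  · have h : ∀ x ∈ S, ¬ G.Adj x s := fun x hx e =>
      (mem_sdiff.1 (a hx)).2 (key x s (hm x (mem_sdiff.1 (a hx)).1) e)
    rw [coe_insert]
    refine Set.Pairwise.insert b fun x hx _ => ⟨fun e => h x hx e.symm, h x hx⟩
  · by_cases e : w ∈ B (top s)
    · exact ⟨s, mem_insert_self _ _, e⟩
    · obtain ⟨x, x1, x2⟩ := c w (mem_sdiff.2 ⟨hw, e⟩)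
      exact ⟨x, mem_insert_of_mem x1, x2⟩

lemma forest {ι : Type} [Fintype ι] [DecidableEq ι] (par : ι → ι) (P : Finset ι) :
    ∃ (F : Finset ι), P ⊆ F ∧ (∀ t ∈ F, par t ∈ F) ∧
      ∑ u ∈ F, (#{c ∈ F | par c ≠ c ∧ par c = u} - 1) ≤ #P := by
  classical
  let F : Finset ι := univ.filter fun u => ∃ p ∈ P, ∃ n, par^[n] p = u
  have hF : ∀ u, u ∈ F ↔ ∃ p ∈ P, ∃ n, par^[n] p = u := by simp [F]
  have cl : ∀ t ∈ F, par t ∈ F := by
    intro t ht
    obtain ⟨p, hp, n, rfl⟩ := (hF t).1 ht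
    exact (hF _).2 ⟨p, hp, n + 1, Function.iterate_succ_apply' _ _ _⟩
  refine ⟨F, fun p hp => (hF p).2 ⟨p, hp, 0, rfl⟩, cl, ?_⟩
  have leaf : ∀ p ∈ P, ∀ n, par^[n] p ∈ P ∨ ∃ c ∈ F, par c ≠ c ∧ par c = par^[n] p := by
    intro p hp n
    induction n with
    | zero => exact .inl hp
    | succ n ih =>
      rw [Function.iterate_succ_apply']
      by_cases e : par (par^[n] p) = par^[n] p
      · rwa [e]
      · exact .inr ⟨_, (hF _).2 ⟨p, hp, n, rfl⟩, e, rfl⟩
  have s1 : ∑ u ∈ F, #{c ∈ F | par c ≠ c ∧ par c = u} ≤ ∑ u ∈ F, 1 := by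
    have := card_eq_sum_card_fiberwise (f := par) (s := {c ∈ F | par c ≠ c}) (t := F)
      (fun c hc => cl c (mem_filter.1 hc).1)
    simp only [filter_filter] at this
    rw [← this, ← card_eq_sum_ones]
    exact card_filter_le _ _
  have s2 : ∑ u ∈ F, ((#{c ∈ F | par c ≠ c ∧ par c = u} - 1) + 1) ≤
      ∑ u ∈ F, (#{c ∈ F | par c ≠ c ∧ par c = u} + if u ∈ P then 1 else 0) := by
    refine sum_le_sum fun u hu => ?_
    obtain ⟨p, hp, n, rfl⟩ := (hF u).1 hu
    rcases leaf p hp n with h | ⟨c, c1, c2⟩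
    · rw [if_pos h]; omega
    · have : 0 < #{c ∈ F | par c ≠ c ∧ par c = par^[n] p} := card_pos.2 ⟨c, mem_filter.2 ⟨c1, c2⟩⟩
      omega
  rw [sum_add_distrib, sum_add_distrib] at s2
  have s3 : ∑ u ∈ F, (if u ∈ P then 1 else 0) ≤ #P := by
    rw [← card_filter]
    exact card_le_card fun x hx => (mem_filter.1 hx).2
  omega

theorem core {V ι : Type} [DecidableEq V] [Finite ι] (G : SimpleGraph V) (T : SimpleGraph ι)
    (hT : T.IsTree) (B : ι → Finset V) (f : ℕ)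
    (h1 : ∀ i, ∀ J ⊆ B i, G.IsIndepSet (J : Set V) → #J ≤ f)
    (h3 : ∀ u v : V, G.Adj u v → ∃ i, u ∈ B i ∧ v ∈ B i)
    (h4 : ∀ v : V, (T.induce {i | v ∈ B i}).Connected)
    (A : Finset V) (I : V → Finset V) (hA : G.IsIndepSet (A : Set V))
    (hI : ∀ v ∈ A, G.IsIndepSet (I v : Set V) ∧ ∀ w ∈ I v, G.Adj v w) :
    ∃ S ⊆ A.biUnion I, G.IsIndepSet (S : Set V) ∧
      ∑ v ∈ A, #(I v) ≤ 2 * f * #A + 2 * f ^ 2 * #S := by
  classical
  have := Fintype.ofFinite ι
  obtain ⟨top, d, par, t1, up, key⟩ := rooted T hT B h4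
  have key' : ∀ u v, d (top u) ≤ d (top v) → G.Adj u v → u ∈ B (top v) := by
    intro u v h e
    obtain ⟨i, a, b⟩ := h3 u v e
    exact key u v h i a b
  obtain ⟨S, s1, s2, s3⟩ := greedy G B top d t1 key' (A.biUnion I)
  refine ⟨S, s1, s2, ?_⟩
  obtain ⟨F, f1, f2, f3⟩ := forest par (S.image top)
  set P := S.image top with hP
  have pc : #P ≤ #S := card_image_le
  let ex : ι → ℕ := fun u => #{c ∈ F | par c ≠ c ∧ par c = u} - 1
  let Ex : V → Finset ι := fun v => {c ∈ F | par c ≠ c ∧ v ∈ B (par c) ∧ v ∉ B c}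
  have bagI : ∀ v ∈ A, ∀ t, #(I v ∩ B t) ≤ f := fun v hv t =>
    h1 t _ inter_subset_right ((hI v hv).1.mono (coe_subset.2 inter_subset_left))
  have bagA : ∀ t, #{v ∈ A | v ∈ B t} ≤ f := fun t =>
    h1 t _ (fun x hx => (mem_filter.1 hx).2) (hA.mono (coe_subset.2 (filter_subset _ _)))
  have e1 : ∀ v, #(Ex v) ≤ 1 + ∑ u ∈ F with v ∈ B u, ex u := by
    intro v
    have a := card_eq_sum_card_fiberwise (f := par) (s := {c ∈ F | par c ≠ c ∧ v ∈ B (par c)})
      (t := {u ∈ F | v ∈ B u}) (fun c hc => by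
        have := mem_filter.1 hc
        exact mem_filter.2 ⟨f2 c this.1, this.2.2⟩)
    have b : ∑ u ∈ F with v ∈ B u, #{c ∈ {c ∈ F | par c ≠ c ∧ v ∈ B (par c)} | par c = u} ≤
        ∑ u ∈ F with v ∈ B u, (ex u + 1) := by
      refine sum_le_sum fun u _ => ?_
      have : #{c ∈ {c ∈ F | par c ≠ c ∧ v ∈ B (par c)} | par c = u} ≤
          #{c ∈ F | par c ≠ c ∧ par c = u} := by
        refine card_le_card fun c hc => ?_
        simp only [mem_filter] at hc ⊢
        exact ⟨hc.1.1, hc.1.2.1, hc.2⟩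
      simp only [ex]
      omega
    rw [sum_add_distrib, ← card_eq_sum_ones] at b
    have c : Ex v ∪ ({u ∈ F | v ∈ B u}).erase (top v) ⊆ {c ∈ F | par c ≠ c ∧ v ∈ B (par c)} := by
      intro x hx
      simp only [Ex, mem_union, mem_filter, mem_erase] at hx ⊢
      rcases hx with h | ⟨x1, x2, x3⟩
      · exact ⟨h.1, h.2.1, h.2.2.1⟩
      · obtain ⟨y1, y2⟩ := up v x x3 x1
        exact ⟨x2, fun e => by rw [e] at y1; omega, y2⟩
    have c2 := card_le_card c
    rw [card_union_of_disjoint] at c2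
    · have := pred_card_le_card_erase (s := {u ∈ F | v ∈ B u}) (a := top v)
      omega
    · rw [Finset.disjoint_left]
      intro x hx hy
      exact (mem_filter.1 hx).2.2.2 (mem_filter.1 (mem_of_mem_erase hy)).2
  have e2 : ∀ v w, v ∈ B (top w) → ∀ n t, d t = n → t ∈ F → w ∈ B t → v ∉ B t →
      ∃ t' ∈ Ex v, w ∈ B t' := by
    intro v w hv n
    induction n using Nat.strong_induction_on with
    | _ n ih =>
    intro t e ht hw hn
    obtain ⟨y1, y2⟩ := up w t hw (fun e => hn (e ▸ hv))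
    by_cases q : v ∈ B (par t)
    · exact ⟨t, mem_filter.2 ⟨ht, fun e => by rw [e] at y1; omega, q, hn⟩, hw⟩
    · exact ih _ (by omega) (par t) rfl (f2 t ht) y2 q
  have e3 : ∀ v ∈ A, #(I v) ≤ f * (2 + #{p ∈ P | v ∈ B p} + ∑ u ∈ F with v ∈ B u, ex u) := by
    intro v hv
    have sub : I v ⊆ (insert (top v) ({p ∈ P | v ∈ B p} ∪ Ex v)).biUnion fun t => I v ∩ B t := by
      intro w hw
      simp only [mem_biUnion, mem_insert, mem_union, mem_inter, mem_filter]
      by_cases q : w ∈ B (top v)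
      · exact ⟨_, .inl rfl, hw, q⟩
      have q2 : v ∈ B (top w) := by
        rcases le_total (d (top v)) (d (top w)) with h | h
        · exact key' v w h ((hI v hv).2 w hw)
        · exact absurd (key' w v h ((hI v hv).2 w hw).symm) q
      obtain ⟨s, hs, hb⟩ := s3 w (mem_biUnion.2 ⟨v, hv, hw⟩)
      have hp : top s ∈ P := mem_image_of_mem _ hs
      by_cases q3 : v ∈ B (top s)
      · exact ⟨_, .inr (.inl ⟨hp, q3⟩), hw, hb⟩
      · obtain ⟨t, a, b⟩ := e2 v w q2 _ _ rfl (f1 hp) hb q3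
        exact ⟨t, .inr (.inr a), hw, b⟩
    refine (card_le_card sub).trans ((card_biUnion_le_card_mul _ _ f fun t _ => bagI v hv t).trans ?_)
    rw [mul_comm]
    refine Nat.mul_le_mul_left _ ((card_insert_le _ _).trans ?_)
    have := card_union_le {p ∈ P | v ∈ B p} (Ex v)
    have := e1 v
    omega
  have sw : ∀ (Q : Finset ι) (g : ι → ℕ),
      ∑ v ∈ A, ∑ u ∈ Q with v ∈ B u, g u ≤ f * ∑ u ∈ Q, g u := by
    intro Q g
    rw [sum_comm' (t' := Q) (s' := fun u => {v ∈ A | v ∈ B u}) (by simp; tauto), mul_sum]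
    refine sum_le_sum fun u _ => ?_
    rw [sum_const, smul_eq_mul]
    exact Nat.mul_le_mul_right _ (bagA u)
  refine (sum_le_sum e3).trans ?_
  rw [← mul_sum, sum_add_distrib, sum_add_distrib, sum_const, smul_eq_mul]
  have w1 := sw P fun _ => 1
  simp only [← card_eq_sum_ones] at w1
  have w2 := sw F ex
  have w3 := Nat.mul_le_mul_left f (f3.trans pc)
  have w4 := Nat.mul_le_mul_left f pc
  calc _ ≤ f * (#A * 2 + f * #S + f * #S) := Nat.mul_le_mul_left _ (by simp only [ex] at w2 ⊢; omega)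
    _ = _ := by ring

end Pool.Agent.H.MP_1b53c2_co
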