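import Mathlib
import Pool.Agent.H.MP_1b53c2_co.A

set_option autoImplicit false

namespace Pool.Agent.H.MP_1b53c2_co

open Finset SimpleGraph

lemma ind_sub {V : Type} (G : SimpleGraph V) (s : Set V) [DecidablePred (· ∈ s)] (J : Finset V)
    (h : G.IsIndepSet (J : Set V)) : (G.induce s).IsIndepSet (J.subtype (· ∈ s) : Set s) := by
  intro a ha b hb hab
  exact h (mem_subtype.1 ha) (mem_subtype.1 hb) fun e => hab (Subtype.ext e)

lemma ind_map {V : Type} (G : SimpleGraph V) (s : Set V) (J : Finset s)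
    (h : (G.induce s).IsIndepSet (J : Set s)) :
    G.IsIndepSet (J.map (Function.Embedding.subtype (· ∈ s)) : Set V) := by
  intro a ha b hb hab
  obtain ⟨x, hx, rfl⟩ := mem_map.1 ha
  obtain ⟨y, hy, rfl⟩ := mem_map.1 hb
  exact h hx hy fun e => hab (by rw [e])

lemma le_ind {V : Type} [Finite V] (G : SimpleGraph V) (s : Set V) (J : Finset V)
    (h : G.IsIndepSet (J : Set V)) (hs : ∀ x ∈ J, x ∈ s) : #J ≤ (G.induce s).indepNum := by
  classical
  have := (ind_sub G s J h).card_le_indepNum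
  rwa [card_subtype, filter_true_of_mem hs] at this

lemma ex_ind {V : Type} (G : SimpleGraph V) (s : Set V) :
    ∃ J : Finset V, G.IsIndepSet (J : Set V) ∧ (∀ x ∈ J, x ∈ s) ∧ #J = (G.induce s).indepNum := by
  obtain ⟨J, h1, h2⟩ := (G.induce s).exists_isNIndepSet_indepNum
  refine ⟨_, ind_map G s J h1, fun x hx => ?_, by rw [card_map, h2]⟩
  obtain ⟨y, -, rfl⟩ := mem_map.1 hx
  exact y.2

theorem main {V : Type} [Fintype V] [DecidableEq V] (G : SimpleGraph V) (f : ℕ)
    (C : Multiset (Finset V)) (hC : C ≠ 0) (h1 : ∀ v, 2 * C.card ≤ 3 * C.countP (v ∈ ·))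
    (h2 : ∀ c ∈ C, ∃ (m : ℕ) (T : SimpleGraph (Fin m)) (X : Fin m → Set (c : Set V)), T.IsTree ∧
      (∀ v, (T.induce {t | v ∈ X t}).Connected) ∧
      (∀ u v, (G.induce (c : Set V)).Adj u v → ∃ t, u ∈ X t ∧ v ∈ X t) ∧
      ∀ t, ((G.induce (c : Set V)).induce (X t)).indepNum ≤ f)
    (S : Set V) (hS : S.Nonempty) :
    ∃ v ∈ S, (G.induce (S ∩ G.neighborSet v)).indepNum ≤ 6 * f + 6 * f ^ 2 := by
  classical
  by_contra hn
  push Not at hn
  obtain ⟨A, a1, a2, a3⟩ := ex_ind G S
  choose I i1 i2 i3 using fun v => ex_ind G (S ∩ G.neighborSet v)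
  have apos : 0 < #A := by
    obtain ⟨v, hv⟩ := hS
    have := le_ind G S {v} (by simp) (by simpa using hv)
    rw [card_singleton] at this
    omega
  have one : ∀ c ∈ C, ∑ v ∈ A, ∑ w ∈ I v, (if v ∈ c ∧ w ∈ c then 1 else 0) ≤
      (2 * f + 2 * f ^ 2) * #A := by
    intro c hc
    obtain ⟨m, T, X, hT, x1, x2, x3⟩ := h2 c hc
    obtain ⟨S', s1, s2, s3⟩ := core (G.induce (c : Set V)) T hT (fun t => (X t).toFinset) f
      (fun t J hJ hI => (le_ind _ (X t) J hI fun x hx => Set.mem_toFinset.1 (hJ hx)).trans (x3 t))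
      (by simpa using x2) (fun v => by
        have : {i | v ∈ (X i).toFinset} = {i | v ∈ X i} := by simp
        rw [this]; exact x1 v) (A.subtype (· ∈ (c : Set V)))
      (fun v => (I v).subtype (· ∈ (c : Set V))) (ind_sub G _ A a1)
      (fun v _ => ⟨ind_sub G _ _ (i1 v), fun w hw => (i2 v w (mem_subtype.1 hw)).2⟩)
    have b1 : #S' ≤ #A := by
      rw [a3, ← card_map (Function.Embedding.subtype (· ∈ (c : Set V)))]
      refine le_ind G S _ (ind_map G _ S' s2) fun x hx => ?_
      obtain ⟨y, hy, rfl⟩ := mem_map.1 hx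
      obtain ⟨v, -, hv⟩ := mem_biUnion.1 (s1 hy)
      exact (i2 v _ (mem_subtype.1 hv)).1
    have b2 : #(A.subtype (· ∈ (c : Set V))) ≤ #A := by
      rw [card_subtype]; exact card_filter_le _ _
    have b3 : ∑ v ∈ A.subtype (· ∈ (c : Set V)), #((I v).subtype (· ∈ (c : Set V))) =
        ∑ v ∈ A, ∑ w ∈ I v, (if v ∈ c ∧ w ∈ c then 1 else 0) := by
      rw [sum_subtype_eq_sum_filter (fun v => #((I v).subtype (· ∈ (c : Set V)))), sum_filter]
      refine sum_congr rfl fun v _ => ?_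
      by_cases e : v ∈ c
      · simp [e, card_subtype, filter_mem_eq_inter]
      · simp [e]
    rw [← b3]
    have := Nat.mul_le_mul_left (2 * f) b2
    have := Nat.mul_le_mul_left (2 * f ^ 2) b1
    rw [add_mul]
    exact s3.trans (by omega)
  have pair : ∀ v w, C.card ≤ 3 * (C.map fun c => if v ∈ c ∧ w ∈ c then 1 else 0).sum := by
    intro v w
    have : ∀ D : Multiset (Finset V), D.countP (v ∈ ·) + D.countP (w ∈ ·) ≤
        D.card + (D.map fun c => if v ∈ c ∧ w ∈ c then 1 else 0).sum := by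
      intro D
      induction D using Multiset.induction_on with
      | empty => simp
      | cons c D ih =>
        simp only [Multiset.countP_cons, Multiset.card_cons, Multiset.map_cons, Multiset.sum_cons]
        by_cases p : v ∈ c <;> by_cases q : w ∈ c <;> simp [p, q] <;> omega
    have := this C
    have := h1 v
    have := h1 w
    omega
  have up : (C.map fun c => ∑ v ∈ A, ∑ w ∈ I v, (if v ∈ c ∧ w ∈ c then 1 else 0)).sum ≤
      C.card * ((2 * f + 2 * f ^ 2) * #A) := by
    have := Multiset.sum_le_card_nsmul (C.map fun c => ∑ v ∈ A, ∑ w ∈ I v,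
      (if v ∈ c ∧ w ∈ c then 1 else 0)) ((2 * f + 2 * f ^ 2) * #A) (by
        intro x hx
        obtain ⟨c, hc, rfl⟩ := Multiset.mem_map.1 hx
        exact one c hc)
    simpa using this
  simp only [Multiset.sum_map_sum] at up
  have lo : ∑ v ∈ A, (6 * f + 6 * f ^ 2 + 1) * C.card ≤
      3 * ∑ v ∈ A, ∑ w ∈ I v, (C.map fun c => if v ∈ c ∧ w ∈ c then 1 else 0).sum := by
    rw [mul_sum]
    refine sum_le_sum fun v hv => ?_
    rw [mul_sum]
    refine le_trans ?_ (sum_le_sum fun w _ => pair v w)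
    rw [sum_const, smul_eq_mul, i3]
    exact Nat.mul_le_mul_right _ (hn v (a2 v hv))
  rw [sum_const, smul_eq_mul] at lo
  have cpos : 0 < C.card := Multiset.card_pos.2 hC
  have := Nat.mul_pos apos cpos
  nlinarith

end Pool.Agent.H.MP_1b53c2_co
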